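import Mathlib

namespace Pool.Agent.Results.MP_793dac_co.ThreeRuns

open List

/-- `w` is a Stirling permutation of order `n`: each of `1,…,n` occurs exactly twice (and nothing
else occurs), and every letter between two copies of `i` exceeds `i`. -/
def IsStirling (n : ℕ) (w : List ℕ) : Prop :=
  (∀ i, w.count i = if 1 ≤ i ∧ i ≤ n then 2 else 0) ∧ ∀ i j, [i, j, i].Sublist w → i < j

/-- The runs of `w`: its maximal contiguous weakly increasing subwords, from left to right. -/
def runs (w : List ℕ) : List (List ℕ) := w.splitBy (fun a b => decide (a ≤ b))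

/-- The leading values of the runs. -/
def leads (w : List ℕ) : List ℕ := (runs w).map (fun r => r.headD 0)

/-- The flattened Stirling permutations of order `n` with exactly three runs. -/
def flat3 (n : ℕ) : Set (List ℕ) :=
  {w | IsStirling n w ∧ (leads w).Pairwise (· ≤ ·) ∧ (runs w).length = 3}

/-! ### Insertions -/

/-- all words obtained from `w` by inserting `N N` -/
def insL (N : ℕ) : List ℕ → List (List ℕ)
  | [] => [[N, N]]
  | a :: l => (N :: N :: a :: l) :: (insL N l).map (a :: ·)

/-- the same without the insertion at the beginning -/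
def insT (N : ℕ) : List ℕ → List (List ℕ)
  | [] => []
  | a :: l => (insL N l).map (a :: ·)

lemma insL_eq (N : ℕ) (w : List ℕ) : insL N w = (N :: N :: w) :: insT N w := by
  cases w <;> rfl

lemma insL_append (N : ℕ) (x y : List ℕ) :
    insL N (x ++ y) = (insL N x).map (· ++ y) ++ (insT N y).map (x ++ ·) := by
  induction x with
  | nil => rw [List.nil_append, insL_eq]; simp [insL]
  | cons a x ih =>
    rw [List.cons_append, insL, ih, insL]
    simp [Function.comp_def]

lemma insT_append (N : ℕ) (x y : List ℕ) (hx : x ≠ []) :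
    insT N (x ++ y) = (insT N x).map (· ++ y) ++ (insT N y).map (x ++ ·) := by
  cases x with
  | nil => exact absurd rfl hx
  | cons a x =>
    rw [List.cons_append, insT, insL_append, insT]
    simp [Function.comp_def]

lemma mem_insL {N : ℕ} {w z : List ℕ} : z ∈ insL N w ↔ ∃ u v, w = u ++ v ∧ z = u ++ N :: N :: v := by
  induction w generalizing z with
  | nil =>
    simp only [insL, List.mem_singleton]
    constructor
    · rintro rfl; exact ⟨[], [], rfl, rfl⟩
    · rintro ⟨u, v, huv, rfl⟩
      have := List.append_eq_nil_iff.mp huv.symm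
      simp [this.1, this.2]
  | cons a l ih =>
    simp only [insL, List.mem_cons, List.mem_map]
    constructor
    · rintro (rfl | ⟨z', hz', rfl⟩)
      · exact ⟨[], a :: l, rfl, rfl⟩
      · obtain ⟨u, v, rfl, rfl⟩ := ih.mp hz'
        exact ⟨a :: u, v, rfl, rfl⟩
    · rintro ⟨u, v, huv, rfl⟩
      cases u with
      | nil => left; simp at huv; simp [← huv]
      | cons b u =>
        simp only [List.cons_append, List.cons.injEq] at huv
        obtain ⟨rfl, rfl⟩ := huv
        right
        exact ⟨u ++ N :: N :: v, ih.mpr ⟨u, v, rfl, rfl⟩, rfl⟩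

lemma insT_sub {N : ℕ} {w z : List ℕ} (h : z ∈ insT N w) : z ∈ insL N w := by
  rw [insL_eq]; exact List.mem_cons_of_mem _ h

lemma insT_head {N a : ℕ} {l z : List ℕ} (h : z ∈ insT N (a :: l)) : ∃ z', z = a :: z' := by
  simp only [insT, List.mem_map] at h
  obtain ⟨z', _, rfl⟩ := h
  exact ⟨z', rfl⟩

/-! ### Enumeration of Stirling permutations -/

/-- all Stirling permutations of order `n` -/
def Q : ℕ → List (List ℕ)
  | 0 => [[]]
  | n + 1 => (Q n).flatMap (insL (n + 1))

lemma mem_Q {n : ℕ} {w : List ℕ} : w ∈ Q n ↔ IsStirling n w := by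
  induction n generalizing w with
  | zero =>
    simp only [Q, List.mem_singleton]
    constructor
    · rintro rfl
      refine ⟨fun i => ?_, fun i j h => ?_⟩
      · rw [if_neg (by omega)]; rfl
      · simp at h
    · rintro ⟨h, _⟩
      cases w with
      | nil => rfl
      | cons a w =>
        have := h a
        rw [if_neg (by omega), List.count_cons_self] at this
        omega
  | succ n ih =>
    simp only [Q, List.mem_flatMap, mem_insL]
    constructor
    · rintro ⟨w', hw', u, v, rfl, rfl⟩
      have hS := ih.mp hw'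
      have hNuv : (u ++ v).count (n + 1) = 0 := by rw [hS.1, if_neg (by omega)]
      rw [List.count_append] at hNuv
      have hNu : n + 1 ∉ u := List.count_eq_zero.mp (by omega)
      have hNv : n + 1 ∉ v := List.count_eq_zero.mp (by omega)
      refine ⟨fun i => ?_, fun i j h => ?_⟩
      · have h1 := hS.1 i
        rw [List.count_append] at h1
        rw [List.count_append, List.count_cons, List.count_cons]
        by_cases hi : i = n + 1
        · subst hi
          rw [if_neg (by omega)] at h1
          simp
          omega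
        · have : ¬ (n + 1 = i) := fun h => hi h.symm
          simp only [beq_iff_eq, this, if_false, Nat.add_zero]
          rw [h1]
          by_cases hc : 1 ≤ i ∧ i ≤ n
          · rw [if_pos hc, if_pos (by omega)]
          · rw [if_neg hc, if_neg (by omega)]
      · by_cases hi : i = n + 1
        · exfalso
          subst hi
          rw [List.sublist_append_iff] at h
          obtain ⟨l1, l2, h12, hl1, hl2⟩ := h
          cases l1 with
          | cons b l1 =>
            simp only [List.cons_append, List.cons.injEq] at h12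
            exact hNu (hl1.subset (by rw [← h12.1]; exact List.mem_cons_self))
          | nil =>
            simp only [List.nil_append] at h12
            subst h12
            have e1 : ∀ l : List ℕ, (n + 1) ∈ l → ¬ l.Sublist v := fun l hl hs => hNv (hs.subset hl)
            rw [List.sublist_cons_iff] at hl2
            rcases hl2 with hl2 | ⟨r, hr, hl2⟩
            · rw [List.sublist_cons_iff] at hl2
              rcases hl2 with hl2 | ⟨r, hr, hl2⟩
              · exact e1 _ (by simp) hl2
              · simp only [List.cons.injEq, true_and] at hr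
                subst hr
                exact e1 _ (by simp) hl2
            · simp only [List.cons.injEq, true_and] at hr
              subst hr
              rw [List.sublist_cons_iff] at hl2
              rcases hl2 with hl2 | ⟨r, hr, hl2⟩
              · exact e1 _ (by simp) hl2
              · simp only [List.cons.injEq] at hr
                obtain ⟨_, rfl⟩ := hr
                exact e1 _ (by simp) hl2
        · have hiS : i ≤ n := by
            have hmem : i ∈ u ++ (n + 1) :: (n + 1) :: v := h.subset (by simp)
            have hmem' : i ∈ u ++ v := by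
              simp only [List.mem_append, List.mem_cons] at hmem ⊢
              tauto
            have := hS.1 i
            have h2 : 0 < (u ++ v).count i := List.count_pos_iff.mpr hmem'
            by_contra hcon
            rw [if_neg (by omega)] at this
            omega
          by_cases hj : j = n + 1
          · omega
          · apply hS.2 i j
            have h3 := h.filter (fun x => decide (x ≠ n + 1))
            have h4 : ([i, j, i].filter (fun x => decide (x ≠ n + 1))) = [i, j, i] := by
              simp [hi, hj]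
            have h5 : (u ++ (n + 1) :: (n + 1) :: v).filter (fun x => decide (x ≠ n + 1)) =
                u ++ v := by
              rw [List.filter_append]
              congr 1
              · rw [List.filter_eq_self]
                intro a ha
                simp only [ne_eq, decide_eq_true_eq]
                rintro rfl; exact hNu ha
              · rw [List.filter_cons_of_neg (by simp), List.filter_cons_of_neg (by simp),
                  List.filter_eq_self]
                intro a ha
                simp only [ne_eq, decide_eq_true_eq]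
                rintro rfl; exact hNv ha
            rwa [h4, h5] at h3
    · rintro ⟨h1, h2⟩
      have hN : (n + 1) ∈ w := by
        rw [← List.count_pos_iff, h1, if_pos (by omega)]; omega
      obtain ⟨u, v, rfl, hu⟩ := List.eq_append_cons_of_mem hN
      have hc := h1 (n + 1)
      rw [if_pos (by omega), List.count_append, List.count_cons_self,
        List.count_eq_zero.mpr hu] at hc
      have hNv : (n + 1) ∈ v := by rw [← List.count_pos_iff]; omega
      obtain ⟨v1, v2, rfl, hv1⟩ := List.eq_append_cons_of_mem hNv
      rw [List.count_append, List.count_cons_self, List.count_eq_zero.mpr hv1] at hc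
      have hv2 : (n + 1) ∉ v2 := List.count_eq_zero.mp (by omega)
      have hv1e : v1 = [] := by
        cases v1 with
        | nil => rfl
        | cons j v1 =>
          exfalso
          have h3 : [n + 1, j, n + 1].Sublist (u ++ (n + 1) :: (j :: v1 ++ (n + 1) :: v2)) := by
            apply List.Sublist.trans _ (List.sublist_append_right _ _)
            apply List.Sublist.cons_cons
            rw [List.cons_append]
            apply List.Sublist.cons_cons
            rw [List.singleton_sublist]
            simp
          have h4 := h2 _ _ h3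
          have h5 := h1 j
          rw [if_neg (by omega)] at h5
          have : j ∈ u ++ (n + 1) :: (j :: v1 ++ (n + 1) :: v2) := by simp
          exact (List.count_eq_zero.mp h5) this
      subst hv1e
      refine ⟨u ++ v2, ih.mpr ⟨fun i => ?_, fun i j h => ?_⟩, u, v2, rfl, rfl⟩
      · have h5 := h1 i
        rw [List.nil_append, List.count_append, List.count_cons, List.count_cons] at h5
        rw [List.count_append]
        by_cases hi : i = n + 1
        · subst hi
          rw [List.count_eq_zero.mpr hu, List.count_eq_zero.mpr hv2, if_neg (by omega)]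
        · have : ¬ (n + 1 = i) := fun h => hi h.symm
          simp only [beq_iff_eq, this, if_false, Nat.add_zero] at h5
          rw [h5]
          by_cases hc : 1 ≤ i ∧ i ≤ n
          · rw [if_pos hc, if_pos (by omega)]
          · rw [if_neg hc, if_neg (by omega)]
      · apply h2
        refine h.trans ?_
        apply List.Sublist.append (List.Sublist.refl _)
        rw [List.nil_append]
        exact ((List.sublist_cons_self _ _).trans (List.sublist_cons_self _ _))

lemma lt_of_mem_Q {n : ℕ} {w : List ℕ} (h : w ∈ Q n) : ∀ x ∈ w, x < n + 1 := by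
  intro x hx
  have h1 := (mem_Q.mp h).1 x
  have h2 : 0 < w.count x := List.count_pos_iff.mpr hx
  by_contra hcon
  rw [if_neg (by omega)] at h1
  omega

lemma insL_inj {N : ℕ} {u v u' v' : List ℕ} (h1 : N ∉ u) (h2 : N ∉ u')
    (h : u ++ N :: N :: v = u' ++ N :: N :: v') : u = u' ∧ v = v' := by
  induction u generalizing u' with
  | nil =>
    cases u' with
    | nil => simp at h; exact ⟨rfl, h⟩
    | cons b u' =>
      simp only [List.nil_append, List.cons_append, List.cons.injEq] at h
      exact absurd (by rw [h.1]; exact List.mem_cons_self) h2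
  | cons a u ih =>
    cases u' with
    | nil =>
      simp only [List.nil_append, List.cons_append, List.cons.injEq] at h
      exact absurd (by rw [← h.1]; exact List.mem_cons_self) h1
    | cons b u' =>
      simp only [List.cons_append, List.cons.injEq] at h
      have h1' : N ∉ u := fun hh => h1 (List.mem_cons_of_mem _ hh)
      have h2' : N ∉ u' := fun hh => h2 (List.mem_cons_of_mem _ hh)
      obtain ⟨rfl, rfl⟩ := ih h1' h2' h.2
      rw [h.1]; exact ⟨rfl, rfl⟩

lemma nodup_insL {N : ℕ} {w : List ℕ} (h : N ∉ w) : (insL N w).Nodup := by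
  induction w with
  | nil => simp [insL]
  | cons a l ih =>
    have hl : N ∉ l := fun hh => h (List.mem_cons_of_mem _ hh)
    rw [insL, List.nodup_cons]
    constructor
    · simp only [List.mem_map, List.cons.injEq, not_exists, not_and]
      intro x _ ha
      exact absurd (by rw [ha]; exact List.mem_cons_self) h
    · exact (ih hl).map (fun x y hxy => by simpa using hxy)

lemma nodup_Q (n : ℕ) : (Q n).Nodup := by
  induction n with
  | zero => simp [Q]
  | succ n ih =>
    rw [Q, List.nodup_flatMap]
    refine ⟨fun w hw => nodup_insL (fun h => absurd (lt_of_mem_Q hw _ h) (lt_irrefl _)), ?_⟩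
    have : List.Pairwise (fun a b => a ≠ b) (Q n) := ih
    refine List.Pairwise.imp_of_mem ?_ this
    intro w w' hw hw' hne
    rw [Function.onFun, List.disjoint_left]
    intro z hz hz'
    apply hne
    rw [mem_insL] at hz hz'
    obtain ⟨u, v, rfl, rfl⟩ := hz
    obtain ⟨u', v', rfl, h⟩ := hz'
    have h1 : n + 1 ∉ u := fun h => absurd (lt_of_mem_Q hw _ (List.mem_append_left _ h))
      (lt_irrefl _)
    have h2 : n + 1 ∉ u' := fun h => absurd (lt_of_mem_Q hw' _ (List.mem_append_left _ h))
      (lt_irrefl _)
    obtain ⟨rfl, rfl⟩ := insL_inj h1 h2 h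
    rfl

/-! ### Insertions and runs -/

lemma runs_chain {x : List ℕ} (h0 : x ≠ []) (hx : x.IsChain (· ≤ ·)) : runs x = [x] := by
  unfold runs
  apply List.splitBy_of_isChain h0
  simpa using hx

lemma runs_append {x y : List ℕ} (h : ∀ a ∈ x.getLast?, ∀ b ∈ y.head?, b < a) :
    runs (x ++ y) = runs x ++ runs y := by
  unfold runs
  apply List.splitBy_append
  intro a ha b hb
  have := h a ha b hb
  simp; omega

/-- the list of runs of a word is a valid list of runs -/
def Valid (rs : List (List ℕ)) : Prop :=
  [] ∉ rs ∧ (∀ x ∈ rs, x.IsChain (· ≤ ·)) ∧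
    rs.IsChain (fun x y => ∀ a ∈ x.getLast?, ∀ b ∈ y.head?, b < a)

lemma valid_runs (w : List ℕ) : Valid (runs w) := by
  refine ⟨List.nil_notMem_splitBy _ _, fun x hx => ?_, ?_⟩
  · have := List.isChain_of_mem_splitBy hx
    simpa using this
  · have := List.isChain_getLast_head_splitBy (fun a b : ℕ => decide (a ≤ b)) w
    refine this.imp ?_
    rintro x y ⟨hx, hy, h⟩ a ha b hb
    rw [← List.getLast_of_mem_getLast? ha, ← List.head_of_mem_head? hb]
    simpa using h

lemma flatten_runs (w : List ℕ) : (runs w).flatten = w := List.flatten_splitBy _ _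

lemma Valid.tail {x : List ℕ} {rs : List (List ℕ)} (h : Valid (x :: rs)) : Valid rs :=
  ⟨fun hh => h.1 (List.mem_cons_of_mem _ hh), fun y hy => h.2.1 y (List.mem_cons_of_mem _ hy),
    h.2.2.tail⟩

lemma Valid.head_lt {x : List ℕ} {rs : List (List ℕ)} (h : Valid (x :: rs)) :
    ∀ a ∈ x.getLast?, ∀ b ∈ rs.flatten.head?, b < a := by
  intro a ha b hb
  cases rs with
  | nil => simp at hb
  | cons y rs =>
    have h1 := (List.isChain_cons_cons.mp h.2.2).1
    have hy : y ≠ [] := fun hy => h.1 (by simp [hy])
    apply h1 a ha b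
    rw [List.flatten_cons] at hb
    cases y with
    | nil => exact absurd rfl hy
    | cons c y => simpa using hb

lemma runs_flatten {rs : List (List ℕ)} (h : Valid rs) : runs rs.flatten = rs := by
  induction rs with
  | nil => rfl
  | cons x rs ih =>
    rw [List.flatten_cons, runs_append h.head_lt, ih h.tail,
      runs_chain (fun hx => h.1 (by simp [hx])) (h.2.1 x List.mem_cons_self)]
    rfl

lemma insL_range (N : ℕ) (l : List ℕ) :
    insL N l = (List.range (l.length + 1)).map (fun p => l.take p ++ N :: N :: l.drop p) := by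
  induction l with
  | nil => simp [insL]
  | cons a l ih =>
    rw [insL, ih, List.length_cons, List.range_succ_eq_map (n := l.length + 1)]
    simp [Function.comp_def]

lemma sum_insL {N : ℕ} (l : List ℕ) (H : List ℕ → ℤ) :
    ((insL N l).map H).sum = ∑ p ∈ Finset.range (l.length + 1), H (l.take p ++ N :: N :: l.drop p) := by
  rw [insL_range, List.map_map]
  rfl

lemma chain_NN {N : ℕ} {l : List ℕ} (hl : l.IsChain (· ≤ ·)) (hN : ∀ t ∈ l, t < N) :
    (l ++ [N, N]).IsChain (· ≤ ·) := by
  rw [List.isChain_append]
  refine ⟨hl, by simp, ?_⟩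
  intro a ha b hb
  simp at hb
  subst hb
  exact (hN a (List.mem_of_mem_getLast? ha)).le

lemma single {N a : ℕ} {l : List ℕ} (hx : (a :: l).IsChain (· ≤ ·)) (hN : ∀ t ∈ a :: l, t < N)
    (H : List (List ℕ) → ℤ) :
    ((insT N (a :: l)).map (fun z => H (runs z))).sum =
      ∑ p ∈ Finset.range l.length, H [a :: (l.take p ++ [N, N]), l.drop p] +
        H [a :: (l ++ [N, N])] := by
  rw [insT, List.map_map, sum_insL, Finset.sum_range_succ]
  congr 1
  · apply Finset.sum_congr rfl
    intro p hp
    rw [Finset.mem_range] at hp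
    simp only [Function.comp]
    congr 1
    have e1 : a :: (l.take p ++ N :: N :: l.drop p) = (a :: (l.take p ++ [N, N])) ++ l.drop p := by
      simp
    have hd : l.drop p ≠ [] := by simp; omega
    rw [e1, runs_append, runs_chain, runs_chain hd]
    · rfl
    · exact (List.IsChain.tail hx).drop p
    · simp
    · have h1 : (a :: (l.take p ++ [N, N])) = (a :: l).take (p + 1) ++ [N, N] := by simp
      rw [h1]
      apply chain_NN (hx.take _)
      intro t ht
      exact hN t (List.mem_of_mem_take ht)
    · intro u hu b hb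
      have h1 : (a :: (l.take p ++ [N, N])) = (a :: (l.take p ++ [N])) ++ [N] := by simp
      rw [h1, List.getLast?_concat] at hu
      simp at hu
      subst hu
      exact hN b (List.mem_cons_of_mem _ (List.mem_of_mem_drop (List.mem_of_mem_head? hb)))
  · simp only [Function.comp, List.take_length, List.drop_length]
    congr 1
    apply runs_chain (by simp)
    have h1 : a :: (l ++ [N, N]) = (a :: l) ++ [N, N] := by simp
    rw [h1]
    exact chain_NN hx hN

lemma last_ins {N : ℕ} {x z : List ℕ} (hz : z ∈ insT N x) : ∀ a ∈ z.getLast?,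
    a = N ∨ a ∈ x.getLast? := by
  obtain ⟨u, v, rfl, rfl⟩ := mem_insL.mp (insT_sub hz)
  intro a ha
  cases v using List.reverseRecOn with
  | nil =>
    have h1 : u ++ [N, N] = (u ++ [N]) ++ [N] := by simp
    rw [h1, List.getLast?_concat] at ha
    simp at ha
    exact Or.inl ha.symm
  | append_singleton v b =>
    have h1 : u ++ N :: N :: (v ++ [b]) = (u ++ N :: N :: v) ++ [b] := by simp
    rw [h1, List.getLast?_concat] at ha
    right
    rw [← List.append_assoc, List.getLast?_concat]
    exact ha

lemma decomp {N : ℕ} {x : List ℕ} {rs : List (List ℕ)} (hv : Valid (x :: rs))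
    (hN : ∀ t ∈ (x :: rs).flatten, t < N) (H : List (List ℕ) → ℤ) :
    ((insT N (x :: rs).flatten).map (fun z => H (runs z))).sum =
      ((insT N x).map (fun z => H (runs z ++ rs))).sum +
        ((insT N rs.flatten).map (fun z => H (x :: runs z))).sum := by
  have hx : x ≠ [] := fun hx => hv.1 (by simp [hx])
  rw [List.flatten_cons, insT_append N x _ hx, List.map_append, List.sum_append, List.map_map,
    List.map_map]
  congr 1
  · congr 1
    apply List.map_congr_left
    intro z hz
    simp only [Function.comp]
    rw [runs_append, runs_flatten hv.tail]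
    intro a ha b hb
    rcases last_ins hz a ha with rfl | h
    · apply hN
      rw [List.flatten_cons]
      exact List.mem_append_right _ (List.mem_of_mem_head? hb)
    · exact hv.head_lt a h b hb
  · congr 1
    apply List.map_congr_left
    intro z hz
    simp only [Function.comp]
    rw [runs_append, runs_chain hx (hv.2.1 x List.mem_cons_self)]
    · rfl
    · intro a ha b hb
      apply hv.head_lt a ha
      cases h : rs.flatten with
      | nil => rw [h] at hz; simp [insT] at hz
      | cons c W =>
        rw [h] at hz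
        obtain ⟨z', rfl⟩ := insT_head hz
        simpa using hb

lemma len_ge {N : ℕ} (rs : List (List ℕ)) (hv : Valid rs) (hN : ∀ t ∈ rs.flatten, t < N) :
    ∀ z ∈ insT N rs.flatten, rs.length ≤ (runs z).length := by
  induction rs with
  | nil => intro z _; simp
  | cons x rs ih =>
    have hx : x ≠ [] := fun hx => hv.1 (by simp [hx])
    intro z hz
    rw [List.flatten_cons, insT_append N x _ hx, List.mem_append, List.mem_map, List.mem_map] at hz
    rcases hz with ⟨z', hz', rfl⟩ | ⟨z', hz', rfl⟩
    · rw [runs_append, runs_flatten hv.tail, List.length_append, List.length_cons]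
      · have : runs z' ≠ [] := by
          unfold runs
          rw [List.splitBy_ne_nil]
          obtain ⟨u, v, _, rfl⟩ := mem_insL.mp (insT_sub hz')
          simp
        have := List.length_pos_iff.mpr this
        omega
      · intro a ha b hb
        rcases last_ins hz' a ha with rfl | h
        · apply hN
          rw [List.flatten_cons]
          exact List.mem_append_right _ (List.mem_of_mem_head? hb)
        · exact hv.head_lt a h b hb
    · rw [runs_append, runs_chain hx (hv.2.1 x List.mem_cons_self), List.length_append,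
        List.length_cons]
      · have := ih hv.tail (fun t ht => hN t (by
          rw [List.flatten_cons]; exact List.mem_append_right _ ht)) z' hz'
        simp; omega
      · intro a ha b hb
        apply hv.head_lt a ha
        cases h : rs.flatten with
        | nil => rw [h] at hz'; simp [insT] at hz'
        | cons c W =>
          rw [h] at hz'
          obtain ⟨z'', rfl⟩ := insT_head hz'
          simpa using hb

/-! ### The states -/

/-- weight of a list of runs -/
def val (f1 f2 : ℕ → ℤ) (f3 : ℤ) : List (List ℕ) → ℤ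
  | [x] => f1 (x.length - 1)
  | [x, y] => if x.headD 0 ≤ y.headD 0 then
      f2 (x.tail.countP (fun t => Nat.ble t (y.headD 0)) + (y.length - 1)) else 0
  | [x, y, z] => if x.headD 0 ≤ y.headD 0 ∧ y.headD 0 ≤ z.headD 0 then f3 else 0
  | _ => 0

lemma val_long (f1 f2 : ℕ → ℤ) (f3 : ℤ) {rs : List (List ℕ)} (h : 4 ≤ rs.length) :
    val f1 f2 f3 rs = 0 := by
  match rs, h with
  | x :: y :: z :: t :: rest, _ => rfl

/-- sum over the letters of the tail not exceeding a bound -/
lemma sum_countP (l : List ℕ) (b : ℕ) (f : ℤ) :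
    ∑ p ∈ Finset.range l.length, (if (l.drop p).headD 0 ≤ b then f else 0) =
      (l.countP (fun t => Nat.ble t b) : ℤ) * f := by
  induction l with
  | nil => simp
  | cons a l ih =>
    rw [List.length_cons, Finset.sum_range_succ']
    simp only [List.drop_succ_cons, List.drop_zero, List.headD_cons]
    rw [ih, List.countP_cons]
    by_cases h : a ≤ b
    · simp [h]; ring
    · simp [h]

lemma sorted_drop {a : ℕ} {l : List ℕ} (hx : (a :: l).IsChain (· ≤ ·)) {p : ℕ} (hp : p < l.length) :
    a ≤ (l.drop p).headD 0 ∧ ∀ t ∈ l.take p, t ≤ (l.drop p).headD 0 := by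
  have hs : (a :: l).Pairwise (· ≤ ·) := List.isChain_iff_pairwise.mp hx
  have h1 : (l.drop p).headD 0 = l[p] := by
    rw [List.drop_eq_getElem_cons hp]; rfl
  rw [h1]
  rw [List.pairwise_cons] at hs
  refine ⟨hs.1 _ (List.getElem_mem hp), ?_⟩
  intro t ht
  have h2 : l = l.take p ++ l.drop p := (List.take_append_drop p l).symm
  rw [h2, List.pairwise_append] at hs
  apply hs.2.2.2 t ht
  rw [List.drop_eq_getElem_cons hp]
  exact List.mem_cons_self

lemma step {N : ℕ} {w : List ℕ} (hw : w ≠ []) (hN : ∀ t ∈ w, t < N) (f1 f2 : ℕ → ℤ) (f3 : ℤ) :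
    ((insL N w).map (fun z => val f1 f2 f3 (runs z))).sum =
      val (fun L => f1 (L + 2) + L * f2 (L - 1)) (fun A => f2 A + f2 (A + 2) + A * f3) (3 * f3)
        (runs w) := by
  have hv := valid_runs w
  have hfl := flatten_runs w
  -- the insertion at the beginning
  have h0 : val f1 f2 f3 (runs (N :: N :: w)) = 0 := by
    have e1 : N :: N :: w = [N, N] ++ w := rfl
    rw [e1, runs_append, runs_chain (by simp) (by simp)]
    · have hne : runs w ≠ [] := by
        unfold runs; rw [List.splitBy_ne_nil]; exact hw
      have hlt : ∀ x ∈ runs w, ¬ N ≤ x.headD 0 := by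
        intro x hx
        have hx0 : x ≠ [] := fun h => hv.1 (h ▸ hx)
        cases x with
        | nil => exact absurd rfl hx0
        | cons c x =>
          have : c ∈ w := by
            rw [← hfl]
            exact List.mem_flatten.mpr ⟨_, hx, List.mem_cons_self⟩
          have := hN c this
          simp; omega
      cases hr : runs w with
      | nil => exact absurd hr hne
      | cons x rs =>
        have hx := hlt x (by rw [hr]; exact List.mem_cons_self)
        cases rs with
        | nil => exact if_neg hx
        | cons y rs =>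
          cases rs with
          | nil => exact if_neg (fun h => hx h.1)
          | cons z rs => rfl
    · intro a ha b hb
      simp at ha
      subst ha
      exact hN b (List.mem_of_mem_head? hb)
  rw [insL_eq, List.map_cons, List.sum_cons, h0, zero_add]
  rw [← hfl] at hN
  conv_lhs => rw [← hfl]
  generalize runs w = rs at hv hN
  clear hfl h0 hw w
  match rs with
  | [] => simp [insT, val]
  | [[]] => exact absurd (by simp) hv.1
  | [a :: l] =>
    have hx := hv.2.1 _ List.mem_cons_self
    have hfl1 : [a :: l].flatten = a :: l := by simp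
    rw [hfl1] at hN ⊢
    rw [single hx hN]
    have e1 : ∀ p ∈ Finset.range l.length,
        val f1 f2 f3 [a :: (l.take p ++ [N, N]), l.drop p] = f2 (l.length - 1) := by
      intro p hp
      rw [Finset.mem_range] at hp
      obtain ⟨h1, h2⟩ := sorted_drop hx hp
      have hb : (l.drop p).headD 0 < N := by
        apply hN
        rw [List.drop_eq_getElem_cons hp]
        exact List.mem_cons_of_mem _ (List.getElem_mem hp)
      simp only [val, List.headD_cons, List.tail_cons]
      rw [if_pos h1]
      congr 1
      rw [List.countP_append, List.countP_eq_length.mpr (fun t ht => Nat.ble_eq.mpr (h2 t ht))]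
      have : ([N, N] : List ℕ).countP (fun t => Nat.ble t ((l.drop p).headD 0)) = 0 := by
        rw [List.countP_eq_zero]
        intro t ht
        simp at ht
        subst ht
        rw [Nat.ble_eq]; omega
      rw [this, List.length_take, List.length_drop]
      omega
    rw [Finset.sum_congr rfl e1, Finset.sum_const, Finset.card_range]
    simp only [val, List.length_cons, List.length_append, List.length_nil, nsmul_eq_mul]
    have : l.length + (0 + 1 + 1) + 1 - 1 = l.length + 1 - 1 + 2 := by omega
    rw [this]
    have : l.length + 1 - 1 = l.length := by omega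
    rw [this]
    ring
  | [[], y] => exact absurd (by simp) hv.1
  | [x, []] => exact absurd (by simp) hv.1
  | [a :: l, b :: m] =>
    rw [decomp hv hN]
    have hx := hv.2.1 (a :: l) (by simp)
    have hy := hv.2.1 (b :: m) (by simp)
    have hfl2 : [b :: m].flatten = b :: m := by simp
    have hNx : ∀ t ∈ a :: l, t < N := fun t ht => hN t (by
      rw [List.flatten_cons]; exact List.mem_append_left _ ht)
    have hNy : ∀ t ∈ b :: m, t < N := fun t ht => hN t (by
      rw [List.flatten_cons, hfl2]; exact List.mem_append_right _ ht)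
    rw [single hx hNx (fun r => val f1 f2 f3 (r ++ [b :: m])), hfl2,
      single hy hNy (fun r => val f1 f2 f3 ((a :: l) :: r))]
    simp only [List.cons_append, List.nil_append]
    have hbN : b < N := hNy b List.mem_cons_self
    have hcnt : (l ++ [N, N]).countP (fun t => Nat.ble t b) =
        l.countP (fun t => Nat.ble t b) := by
      rw [List.countP_append]
      have : ([N, N] : List ℕ).countP (fun t => Nat.ble t b) = 0 := by
        rw [List.countP_eq_zero]
        intro t ht
        simp at ht
        subst ht
        rw [Nat.ble_eq]; omega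
      rw [this, Nat.add_zero]
    by_cases hab : a ≤ b
    · have e1 : ∀ p ∈ Finset.range l.length,
          val f1 f2 f3 [a :: (l.take p ++ [N, N]), l.drop p, b :: m] =
            if (l.drop p).headD 0 ≤ b then f3 else 0 := by
        intro p hp
        rw [Finset.mem_range] at hp
        obtain ⟨h1, _⟩ := sorted_drop hx hp
        simp only [val, List.headD_cons, h1, true_and]
      have e2 : ∀ p ∈ Finset.range m.length,
          val f1 f2 f3 [a :: l, b :: (m.take p ++ [N, N]), m.drop p] = f3 := by
        intro p hp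
        rw [Finset.mem_range] at hp
        obtain ⟨h1, _⟩ := sorted_drop hy hp
        simp only [val, List.headD_cons, h1, hab, and_self, if_true]
      rw [Finset.sum_congr rfl e1, Finset.sum_congr rfl e2, sum_countP, Finset.sum_const,
        Finset.card_range]
      simp only [val, List.headD_cons, List.tail_cons, if_pos hab, List.length_cons,
        List.length_append, List.length_nil, nsmul_eq_mul]
      rw [hcnt]
      have : m.length + (0 + 1 + 1) + 1 - 1 = m.length + 1 - 1 + 2 := by omega
      rw [this]
      have : m.length + 1 - 1 = m.length := by omega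
      rw [this, ← Nat.add_assoc]
      push_cast
      ring
    · have e1 : ∀ p ∈ Finset.range l.length,
          val f1 f2 f3 [a :: (l.take p ++ [N, N]), l.drop p, b :: m] = 0 := by
        intro p hp
        rw [Finset.mem_range] at hp
        obtain ⟨h1, _⟩ := sorted_drop hx hp
        simp only [val, List.headD_cons]
        rw [if_neg (fun h => hab (h.1.trans h.2))]
      have e2 : ∀ p ∈ Finset.range m.length,
          val f1 f2 f3 [a :: l, b :: (m.take p ++ [N, N]), m.drop p] = 0 := by
        intro p hp
        simp only [val, List.headD_cons]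
        rw [if_neg (fun h => hab h.1)]
      rw [Finset.sum_congr rfl e1, Finset.sum_congr rfl e2]
      simp only [val, List.headD_cons, if_neg hab, Finset.sum_const_zero, add_zero]
  | [[], y, z] => exact absurd (by simp) hv.1
  | [x, [], z] => exact absurd (by simp) hv.1
  | [x, y, []] => exact absurd (by simp) hv.1
  | [a :: l, b :: m, c :: k] =>
    rw [decomp hv hN, decomp hv.tail (fun t ht => hN t (by
      rw [List.flatten_cons]; exact List.mem_append_right _ ht))
      (fun r => val f1 f2 f3 ((a :: l) :: r))]
    have hx := hv.2.1 (a :: l) (by simp)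
    have hy := hv.2.1 (b :: m) (by simp)
    have hz := hv.2.1 (c :: k) (by simp)
    have hfl2 : [c :: k].flatten = c :: k := by simp
    have hNx : ∀ t ∈ a :: l, t < N := fun t ht => hN t (by
      rw [List.flatten_cons]; exact List.mem_append_left _ ht)
    have hNy : ∀ t ∈ b :: m, t < N := fun t ht => hN t (by
      rw [List.flatten_cons, List.flatten_cons]
      exact List.mem_append_right _ (List.mem_append_left _ ht))
    have hNz : ∀ t ∈ c :: k, t < N := fun t ht => hN t (by
      rw [List.flatten_cons, List.flatten_cons, hfl2]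
      exact List.mem_append_right _ (List.mem_append_right _ ht))
    rw [single hx hNx (fun r => val f1 f2 f3 (r ++ [b :: m, c :: k])), hfl2,
      single hy hNy (fun r => val f1 f2 f3 ((a :: l) :: (r ++ [c :: k]))),
      single hz hNz (fun r => val f1 f2 f3 ((a :: l) :: (b :: m) :: r))]
    simp only [List.cons_append, List.nil_append, val, Finset.sum_const_zero, zero_add,
      List.headD_cons]
    by_cases h : a ≤ b ∧ b ≤ c
    · simp only [if_pos h]; ring
    · simp only [if_neg h]; ring
  | x :: y :: z :: t :: rest =>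
    have h1 : ∀ u ∈ (insT N (x :: y :: z :: t :: rest).flatten).map
        (fun z => val f1 f2 f3 (runs z)), u = 0 := by
      intro u hu
      rw [List.mem_map] at hu
      obtain ⟨q, hq, rfl⟩ := hu
      have := len_ge _ hv hN q hq
      apply val_long
      simp only [List.length_cons] at this
      omega
    rw [List.sum_eq_zero h1]
    rfl

/-! ### The recursion -/

/-- weighted sum over all Stirling permutations of order `n` -/
def T (n : ℕ) (f1 f2 : ℕ → ℤ) (f3 : ℤ) : ℤ := ((Q n).map (fun w => val f1 f2 f3 (runs w))).sum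

lemma sum_flatMap' (l : List (List ℕ)) (g : List ℕ → List (List ℕ)) (H : List ℕ → ℤ) :
    ((l.flatMap g).map H).sum = (l.map (fun w => ((g w).map H).sum)).sum := by
  induction l with
  | nil => rfl
  | cons a l ih =>
    rw [List.flatMap_cons, List.map_append, List.sum_append, ih, List.map_cons, List.sum_cons]

lemma ne_nil_of_mem_Q {n : ℕ} (hn : 1 ≤ n) {w : List ℕ} (h : w ∈ Q n) : w ≠ [] := by
  rintro rfl
  have := (mem_Q.mp h).1 1
  rw [if_pos ⟨le_rfl, hn⟩] at this
  simp at this

lemma T_succ {n : ℕ} (hn : 1 ≤ n) (f1 f2 : ℕ → ℤ) (f3 : ℤ) :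
    T (n + 1) f1 f2 f3 =
      T n (fun L => f1 (L + 2) + L * f2 (L - 1)) (fun A => f2 A + f2 (A + 2) + A * f3)
        (3 * f3) := by
  unfold T
  rw [Q, sum_flatMap']
  congr 1
  apply List.map_congr_left
  intro w hw
  exact step (ne_nil_of_mem_Q hn hw) (lt_of_mem_Q hw) f1 f2 f3

lemma T_one (f1 f2 : ℕ → ℤ) (f3 : ℤ) : T 1 f1 f2 f3 = f1 1 := by
  have h1 : Q 1 = [[1, 1]] := rfl
  have h2 : runs [1, 1] = [[1, 1]] := runs_chain (by simp) (by simp)
  unfold T
  rw [h1, List.map_cons, List.map_nil, List.sum_cons, List.sum_nil, h2, add_zero]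
  rfl

/-- coefficient functions -/
def g1 (k L : ℕ) : ℤ := (3 ^ k + 1 - 2 * 2 ^ k) * (L : ℤ) ^ 2 +
  (3 * (3 ^ k - 1) - 2 * (k + 3) * 2 ^ k + 6 + 4 * k) * L +
  (5 * (3 ^ k - 1) - 4 * (k + 3) * 2 ^ k + 12 + 4 * k ^ 2 + 6 * k)
/-- coefficient functions -/
def g2 (k A : ℕ) : ℤ := 2 * (3 ^ k - 2 ^ k) * A + 2 * (2 * 3 ^ k - (k + 2) * 2 ^ k)

lemma T_general (k : ℕ) : ∀ n, 1 ≤ n →
    T (n + k) (fun _ => 0) (fun _ => 0) 2 = T n (g1 k) (g2 k) (2 * 3 ^ k) := by
  induction k with
  | zero =>
    intro n _
    have e1 : g1 0 = fun _ => 0 := by funext L; simp [g1]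
    have e2 : g2 0 = fun _ => 0 := by funext A; simp [g2]
    rw [e1, e2]; simp
  | succ k ih =>
    intro n hn
    have h1 : n + (k + 1) = (n + 1) + k := by ring
    rw [h1, ih (n + 1) (by omega), T_succ hn]
    have e1 : (fun L : ℕ => g1 k (L + 2) + L * g2 k (L - 1)) = g1 (k + 1) := by
      funext L
      rcases Nat.eq_zero_or_pos L with h0 | h0
      · subst h0
        unfold g1 g2
        push_cast
        ring
      · obtain ⟨M, rfl⟩ : ∃ M, L = M + 1 := ⟨L - 1, by omega⟩
        rw [Nat.add_sub_cancel]
        unfold g1 g2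
        push_cast
        ring
    have e2 : (fun A : ℕ => g2 k A + g2 k (A + 2) + A * (2 * 3 ^ k)) = g2 (k + 1) := by
      funext A
      unfold g2
      push_cast
      ring
    have e3 : (3 * (2 * 3 ^ k) : ℤ) = 2 * 3 ^ (k + 1) := by ring
    rw [e1, e2, e3]

lemma val_indicator (w : List ℕ) : val (fun _ => 0) (fun _ => 0) 2 (runs w) =
    if ((leads w).Pairwise (· ≤ ·) ∧ (runs w).length = 3) then 2 else 0 := by
  unfold leads
  generalize runs w = rs
  match rs with
  | [] => simp [val]
  | [x] => simp [val]
  | [x, y] => simp [val]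
  | [x, y, z] =>
    have hp : ([x.headD 0, y.headD 0, z.headD 0] : List ℕ).Pairwise (· ≤ ·) ↔
        (x.headD 0 ≤ y.headD 0 ∧ y.headD 0 ≤ z.headD 0) := by
      rw [List.pairwise_cons, List.pairwise_cons]
      constructor
      · rintro ⟨h1, h2, _⟩
        exact ⟨h1 _ (by simp), h2 _ (by simp)⟩
      · rintro ⟨h1, h2⟩
        refine ⟨?_, ?_, by simp⟩
        · intro t ht
          rw [List.mem_cons, List.mem_singleton] at ht
          rcases ht with rfl | rfl
          · exact h1
          · exact h1.trans h2
        · intro t ht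
          rw [List.mem_singleton] at ht
          rw [ht]; exact h2
    show (if x.headD 0 ≤ y.headD 0 ∧ y.headD 0 ≤ z.headD 0 then (2 : ℤ) else 0) =
      if ([x.headD 0, y.headD 0, z.headD 0] : List ℕ).Pairwise (· ≤ ·) ∧ 3 = 3 then 2 else 0
    by_cases h : x.headD 0 ≤ y.headD 0 ∧ y.headD 0 ≤ z.headD 0
    · rw [if_pos h, if_pos ⟨hp.mpr h, rfl⟩]
    · rw [if_neg h, if_neg (fun h' => h (hp.mp h'.1))]
  | x :: y :: z :: t :: rest =>
    rw [if_neg (by simp)]
    rfl

lemma ncard_flat3 (n : ℕ) : 2 * ((flat3 n).ncard : ℤ) = T n (fun _ => 0) (fun _ => 0) 2 := by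
  have h1 : flat3 n = (((Q n).toFinset.filter
      (fun w => (leads w).Pairwise (· ≤ ·) ∧ (runs w).length = 3) : Finset (List ℕ)) :
      Set (List ℕ)) := by
    ext w
    simp only [flat3, Finset.coe_filter, List.mem_toFinset, mem_Q, Set.mem_ofPred_eq]
  rw [h1, Set.ncard_coe_finset]
  unfold T
  have h2 : (fun w => val (fun _ => 0) (fun _ => 0) 2 (runs w)) =
    fun w => if ((leads w).Pairwise (· ≤ ·) ∧ (runs w).length = 3) then (2 : ℤ) else 0 := by
    funext w; exact val_indicator w
  rw [h2, ← List.sum_toFinset _ (nodup_Q n), ← Finset.sum_filter, Finset.sum_const]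
  simp
  ring

/-- The closed form. -/
lemma closed (k : ℕ) : 2 * ((flat3 (k + 1)).ncard : ℤ) =
    9 * 3 ^ k - (6 * k + 20) * 2 ^ k + 4 * k ^ 2 + 10 * k + 11 := by
  rw [ncard_flat3, Nat.add_comm k 1, T_general k 1 le_rfl, T_one]
  unfold g1
  push_cast
  ring

/-! ### The binomial sums -/

lemma sum_Icc_sub (N a : ℕ) (f : ℕ → ℤ) (hf : ∀ k, N < k → f k = 0) :
    ∑ k ∈ Finset.Icc a N, f k =
      ∑ k ∈ Finset.range (N + 1), f k - ∑ k ∈ Finset.range a, f k := by
  have h1 : ∑ k ∈ Finset.range (a + N + 1), f k = ∑ k ∈ Finset.range (N + 1), f k := by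
    symm
    apply Finset.sum_subset
    · intro x hx; rw [Finset.mem_range] at *; omega
    · intro x _ hx; rw [Finset.mem_range] at hx; exact hf x (by omega)
  have h2 : ∑ k ∈ Finset.Icc a N, f k = ∑ k ∈ Finset.Ico a (a + N + 1), f k := by
    apply Finset.sum_subset
    · intro x hx; rw [Finset.mem_Icc] at hx; rw [Finset.mem_Ico]; omega
    · intro x hx1 hx; rw [Finset.mem_Icc] at hx; rw [Finset.mem_Ico] at hx1; exact hf x (by omega)
  have h3 := Finset.sum_Ico_consecutive f (Nat.zero_le a) (show a ≤ a + N + 1 by omega)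
  rw [← Finset.range_eq_Ico, ← Finset.range_eq_Ico, h1, ← h2] at h3
  linarith

/-- `∑_{j ≥ 2} C(M,j)` -/
def SS (M : ℕ) : ℕ := ∑ j ∈ Finset.Icc 2 M, M.choose j

lemma SS_eq (M : ℕ) : (SS M : ℤ) = 2 ^ M - 1 - M := by
  unfold SS
  push_cast
  rw [sum_Icc_sub M 2 (fun j => (M.choose j : ℤ)) (fun k hk => by
    simp [Nat.choose_eq_zero_of_lt hk])]
  have h1 : ∑ k ∈ Finset.range (M + 1), (M.choose k : ℤ) = 2 ^ M := by
    exact_mod_cast Nat.sum_range_choose M
  rw [h1, Finset.sum_range_succ, Finset.sum_range_one]
  simp
  ring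

lemma sum_k_choose (N : ℕ) : 2 * ∑ k ∈ Finset.range (N + 1), ((N - k : ℕ) : ℤ) * (N.choose k : ℤ) =
    N * 2 ^ N := by
  have h1 : ∑ k ∈ Finset.range (N + 1), ((N - k : ℕ) : ℤ) * (N.choose k : ℤ) =
      ∑ k ∈ Finset.range (N + 1), (k : ℤ) * (N.choose k : ℤ) := by
    rw [← Finset.sum_flip]
    apply Finset.sum_congr rfl
    intro k hk
    rw [Finset.mem_range] at hk
    rw [Nat.choose_symm (by omega)]
    congr 2
    omega
  have h2 : ∑ k ∈ Finset.range (N + 1), ((N - k : ℕ) : ℤ) * (N.choose k : ℤ) +
      ∑ k ∈ Finset.range (N + 1), (k : ℤ) * (N.choose k : ℤ) = N * 2 ^ N := by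
    rw [← Finset.sum_add_distrib]
    have h3 : ∀ k ∈ Finset.range (N + 1), ((N - k : ℕ) : ℤ) * (N.choose k : ℤ) +
        (k : ℤ) * (N.choose k : ℤ) = N * (N.choose k : ℤ) := by
      intro k hk
      rw [Finset.mem_range] at hk
      rw [← add_mul]
      congr 1
      have : N - k + k = N := by omega
      exact_mod_cast this
    rw [Finset.sum_congr rfl h3, ← Finset.mul_sum]
    congr 1
    exact_mod_cast Nat.sum_range_choose N
  linarith

lemma sum_pow_choose (N : ℕ) :
    ∑ k ∈ Finset.range (N + 1), (N.choose k : ℤ) * 2 ^ (N - k) = 3 ^ N := by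
  have h := add_pow (1 : ℤ) 2 N
  norm_num at h
  rw [h]
  apply Finset.sum_congr rfl
  intro k _
  ring

lemma sum_pow_choose' (N : ℕ) :
    ∑ k ∈ Finset.range (N + 1), (N.choose k : ℤ) * 2 ^ k = 3 ^ N := by
  have h := add_pow (2 : ℤ) 1 N
  norm_num at h
  rw [h]
  apply Finset.sum_congr rfl
  intro k _
  ring

lemma base_sum (N : ℕ) : 2 * ∑ k ∈ Finset.range (N + 1), (N.choose k : ℤ) * (SS (N - k) : ℤ) =
    2 * 3 ^ N - 2 * 2 ^ N - N * 2 ^ N := by
  have h1 : ∑ k ∈ Finset.range (N + 1), (N.choose k : ℤ) * (SS (N - k) : ℤ) =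
      ∑ k ∈ Finset.range (N + 1), (N.choose k : ℤ) * 2 ^ (N - k) -
      ∑ k ∈ Finset.range (N + 1), (N.choose k : ℤ) -
      ∑ k ∈ Finset.range (N + 1), ((N - k : ℕ) : ℤ) * (N.choose k : ℤ) := by
    rw [← Finset.sum_sub_distrib, ← Finset.sum_sub_distrib]
    apply Finset.sum_congr rfl
    intro k _
    rw [SS_eq]; ring
  have h2 : ∑ k ∈ Finset.range (N + 1), (N.choose k : ℤ) = 2 ^ N := by
    exact_mod_cast Nat.sum_range_choose N
  rw [h1, sum_pow_choose, h2]
  have := sum_k_choose N
  linarith

lemma A1 (N : ℕ) : 2 * ∑ k ∈ Finset.Icc 1 N, (N.choose k : ℤ) * (SS (N - k) : ℤ) =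
    2 * 3 ^ N - 4 * 2 ^ N - N * 2 ^ N + 2 + 2 * N := by
  rw [sum_Icc_sub N 1 (fun k => (N.choose k : ℤ) * (SS (N - k) : ℤ)) (fun k hk => by
    simp [Nat.choose_eq_zero_of_lt hk]), Finset.sum_range_one]
  have h := base_sum N
  simp only [Nat.choose_zero_right, Nat.sub_zero, Nat.cast_one, one_mul]
  rw [SS_eq]
  linarith

lemma A2 (N : ℕ) : 2 * ∑ k ∈ Finset.Icc 2 N, (N.choose k : ℤ) * (SS (N - k) : ℤ) =
    2 * 3 ^ N - 4 * 2 ^ N - 2 * N * 2 ^ N + 2 + 2 * N + 2 * N ^ 2 := by
  rw [sum_Icc_sub N 2 (fun k => (N.choose k : ℤ) * (SS (N - k) : ℤ)) (fun k hk => by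
    simp [Nat.choose_eq_zero_of_lt hk]), Finset.sum_range_succ _ 1, Finset.sum_range_one]
  have h := base_sum N
  simp only [Nat.choose_zero_right, Nat.sub_zero, Nat.cast_one, one_mul, Nat.choose_one_right]
  rw [SS_eq, SS_eq]
  rcases Nat.eq_zero_or_pos N with h0 | h0
  · subst h0; simp
  · obtain ⟨M, rfl⟩ : ∃ M, N = M + 1 := ⟨N - 1, by omega⟩
    rw [Nat.add_sub_cancel]
    push_cast at h ⊢
    rw [pow_succ (2 : ℤ) M] at h ⊢
    linarith

lemma A3 (N : ℕ) : 2 * ((∑ k ∈ Finset.Icc 3 N, (2 ^ (k - 1) - 2) * N.choose k : ℕ) : ℤ) =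
    3 ^ N - 4 * 2 ^ N + 3 + 2 * N := by
  have h1 : 2 * ((∑ k ∈ Finset.Icc 3 N, (2 ^ (k - 1) - 2) * N.choose k : ℕ) : ℤ) =
      ∑ k ∈ Finset.Icc 3 N, (N.choose k : ℤ) * (2 ^ k - 4) := by
    push_cast
    rw [Finset.mul_sum]
    apply Finset.sum_congr rfl
    intro k hk
    rw [Finset.mem_Icc] at hk
    obtain ⟨m, rfl⟩ : ∃ m, k = m + 1 := ⟨k - 1, by omega⟩
    have h2 : 2 ≤ 2 ^ m := by
      calc 2 = 2 ^ 1 := by norm_num
        _ ≤ 2 ^ m := Nat.pow_le_pow_right (by norm_num) (by omega)
    rw [Nat.add_sub_cancel, Nat.cast_sub h2]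
    push_cast
    ring
  rw [h1, sum_Icc_sub N 3 (fun k => (N.choose k : ℤ) * (2 ^ k - 4)) (fun k hk => by
    simp [Nat.choose_eq_zero_of_lt hk])]
  have h2 : ∑ k ∈ Finset.range (N + 1), (N.choose k : ℤ) * (2 ^ k - 4) =
      ∑ k ∈ Finset.range (N + 1), (N.choose k : ℤ) * 2 ^ k -
      4 * ∑ k ∈ Finset.range (N + 1), (N.choose k : ℤ) := by
    rw [Finset.mul_sum, ← Finset.sum_sub_distrib]
    apply Finset.sum_congr rfl
    intro k _
    ring
  have h3 : ∑ k ∈ Finset.range (N + 1), (N.choose k : ℤ) = 2 ^ N := by
    exact_mod_cast Nat.sum_range_choose N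
  rw [h2, sum_pow_choose', h3, Finset.sum_range_succ, Finset.sum_range_succ, Finset.sum_range_one]
  simp
  ring

/-- (1) For every `n ≥ 1` the number of flattened Stirling permutations of order `n` with exactly
three runs is given by the binomial formula with coefficient `2` in front of the second double sum;
(2) equivalently by a closed form; (3) with coefficient `1` in front of the second double sum the
formula is wrong, e.g. for `n = 5`. -/
theorem result :
    (∀ n ≥ 1, (flat3 n).ncard =
      2 * ∑ k ∈ Finset.Icc 1 (n - 1), (n - 1).choose k *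
        ∑ j ∈ Finset.Icc 2 (n - 1 - k), (n - 1 - k).choose j +
      2 * ∑ k ∈ Finset.Icc 2 (n - 1), (n - 1).choose k *
        ∑ j ∈ Finset.Icc 2 (n - 1 - k), (n - 1 - k).choose j +
      ∑ k ∈ Finset.Icc 3 (n - 1), (2 ^ (k - 1) - 2) * (n - 1).choose k) ∧
    (∀ k : ℕ, 2 * ((flat3 (k + 1)).ncard : ℤ) =
      9 * 3 ^ k - (6 * k + 20) * 2 ^ k + 4 * k ^ 2 + 10 * k + 11) ∧
    ((flat3 5).ncard = 70 ∧ 70 ≠
      2 * ∑ k ∈ Finset.Icc 1 (5 - 1), (5 - 1).choose k *
        ∑ j ∈ Finset.Icc 2 (5 - 1 - k), (5 - 1 - k).choose j +
      ∑ k ∈ Finset.Icc 2 (5 - 1), (5 - 1).choose k *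
        ∑ j ∈ Finset.Icc 2 (5 - 1 - k), (5 - 1 - k).choose j +
      ∑ k ∈ Finset.Icc 3 (5 - 1), (2 ^ (k - 1) - 2) * (5 - 1).choose k) := by
  refine ⟨?_, closed, ?_, ?_⟩
  · intro n hn
    obtain ⟨N, rfl⟩ : ∃ N, n = N + 1 := ⟨n - 1, by omega⟩
    rw [Nat.add_sub_cancel]
    have h0 := closed N
    have h1 := A1 N
    have h2 := A2 N
    have h3 := A3 N
    have e1 : ((∑ k ∈ Finset.Icc 1 N, N.choose k * SS (N - k) : ℕ) : ℤ) =
        ∑ k ∈ Finset.Icc 1 N, (N.choose k : ℤ) * (SS (N - k) : ℤ) := by push_cast; rfl
    have e2 : ((∑ k ∈ Finset.Icc 2 N, N.choose k * SS (N - k) : ℕ) : ℤ) =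
        ∑ k ∈ Finset.Icc 2 N, (N.choose k : ℤ) * (SS (N - k) : ℤ) := by push_cast; rfl
    rw [← e1] at h1
    rw [← e2] at h2
    have key : ((flat3 (N + 1)).ncard : ℤ) =
        ((2 * (∑ k ∈ Finset.Icc 1 N, N.choose k * SS (N - k)) +
          2 * (∑ k ∈ Finset.Icc 2 N, N.choose k * SS (N - k)) +
          ∑ k ∈ Finset.Icc 3 N, (2 ^ (k - 1) - 2) * N.choose k : ℕ) : ℤ) := by
      rw [Nat.cast_add, Nat.cast_add, Nat.cast_mul, Nat.cast_mul]
      push_cast at h1 h2 h3 ⊢
      linarith
    exact_mod_cast key
  · have := closed 4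
    norm_num at this
    omega
  · decide

end Pool.Agent.Results.MP_793dac_co.ThreeRuns
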